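import Pool.Agent.Helper86.SG.Defs

/-! SG, package CENA. -/

open Finset

namespace Pool.Agent.Helper58.SGC

open SJ (supp IsV dot fib)
open SG

theorem cena (hRUL : RULStm) : CENAStm := by
  intro n k d F hk hF T v₁ hgood
  classical
  choose c hc using fun (S : Finset (Fin n)) (h1 : #S = k) (h2 : Disjoint S T) (h3 : v₁ ∈ S) =>
    (hgood S h1 h2 h3).2
  have key : ∀ m : ℕ, ∀ (S S' : Finset (Fin n)) (h1 : #S = k) (h2 : Disjoint S T) (h3 : v₁ ∈ S)
      (h1' : #S' = k) (h2' : Disjoint S' T) (h3' : v₁ ∈ S'), #(S' \ S) = m →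
      ∀ u ∈ S, u ∈ S' → u ≠ v₁ → c S h1 h2 h3 u = c S' h1' h2' h3' u := by
    intro m
    induction m with
    | zero =>
      intro S S' h1 h2 h3 h1' h2' h3' hm u hu hu' huv
      have h4 : S' ⊆ S := by
        rw [← sdiff_eq_empty_iff_subset, ← card_eq_zero]
        exact hm
      have h5 : S' = S := eq_of_subset_of_card_le h4 (by rw [h1, h1'])
      subst h5
      rfl
    | succ m ih =>
      intro S S' h1 h2 h3 h1' h2' h3' hm u hu hu' huv
      obtain ⟨b, hb⟩ : (S' \ S).Nonempty := card_pos.1 (by omega)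
      have hcard : #(S \ S') = #(S' \ S) := by
        have e1 := card_sdiff_add_card_inter S S'
        have e2 := card_sdiff_add_card_inter S' S
        rw [inter_comm S' S] at e2
        omega
      obtain ⟨a, ha⟩ : (S \ S').Nonempty := card_pos.1 (by omega)
      rw [mem_sdiff] at ha hb
      have hba : b ∉ S.erase a := fun h => hb.2 (mem_of_mem_erase h)
      let S2 : Finset (Fin n) := insert b (S.erase a)
      have g1 : #S2 = k := by
        rw [card_insert_of_notMem hba, card_erase_of_mem ha.1, h1]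
        omega
      have g2 : Disjoint S2 T := by
        rw [disjoint_left]
        intro x hx
        rcases mem_insert.1 hx with rfl | hx
        · exact disjoint_left.1 h2' hb.1
        · exact disjoint_left.1 h2 (mem_of_mem_erase hx)
      have hmem : ∀ x ∈ S, x ∈ S' → x ∈ S2 := by
        intro x hx hx'
        refine mem_insert_of_mem (mem_erase.2 ⟨?_, hx⟩)
        rintro rfl
        exact ha.2 hx'
      have g3 : v₁ ∈ S2 := hmem v₁ h3 h3'
      have g4 : u ∈ S2 := hmem u hu hu'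
      have g5 : #(S' \ S2) = m := by
        have e1 : S' \ S2 = (S' \ S).erase b := by
          ext x
          simp only [S2, mem_sdiff, mem_insert, mem_erase, not_or, not_and]
          constructor
          · rintro ⟨q1, q2, q3⟩
            refine ⟨q2, q1, fun q4 => ?_⟩
            exact q3 (fun q5 => ha.2 (q5 ▸ q1)) q4
          · rintro ⟨q1, q2, q3⟩
            exact ⟨q2, q1, fun _ => q3⟩
        rw [e1, card_erase_of_mem (mem_sdiff.2 hb), hm]
        rfl
      have g6 : 2 * d + 2 ≤ #(S ∩ S2) := by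
        have e1 : S.erase a ⊆ S ∩ S2 := fun x hx =>
          mem_inter.2 ⟨mem_of_mem_erase hx, mem_insert_of_mem hx⟩
        have e2 := card_le_card e1
        rw [card_erase_of_mem ha.1, h1] at e2
        omega
      have g7 := (hRUL n k d F hk hF S S2 h1 g1 (hgood S h1 h2 h3).1 g6 v₁ v₁ _ _
        (hc S h1 h2 h3) (hc S2 g1 g2 g3)).2 rfl u (mem_inter.2 ⟨hu, g4⟩) huv
      rw [g7]
      exact ih S2 S' g1 g2 g3 h1' h2' h3' g5 u g4 hu' huv
  let c0 : Fin n → ℤ := fun u =>
    if h : ∃ S : Finset (Fin n), #S = k ∧ Disjoint S T ∧ v₁ ∈ S ∧ u ∈ S then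
      c h.choose h.choose_spec.1 h.choose_spec.2.1 h.choose_spec.2.2.1 u else 1
  have hc0 : ∀ (S : Finset (Fin n)) (h1 : #S = k) (h2 : Disjoint S T) (h3 : v₁ ∈ S), ∀ u ∈ S,
      u ≠ v₁ → c0 u = c S h1 h2 h3 u := by
    intro S h1 h2 h3 u hu huv
    have h : ∃ S : Finset (Fin n), #S = k ∧ Disjoint S T ∧ v₁ ∈ S ∧ u ∈ S := ⟨S, h1, h2, h3, hu⟩
    have e : c0 u = c h.choose h.choose_spec.1 h.choose_spec.2.1 h.choose_spec.2.2.1 u := dif_pos h
    rw [e]
    exact key _ _ _ _ _ _ h1 h2 h3 rfl u h.choose_spec.2.2.2 hu huv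
  have hsign : ∀ i, c0 i = 1 ∨ c0 i = -1 := by
    intro i
    by_cases h : ∃ S : Finset (Fin n), #S = k ∧ Disjoint S T ∧ v₁ ∈ S ∧ i ∈ S
    · have e : c0 i = c h.choose h.choose_spec.1 h.choose_spec.2.1 h.choose_spec.2.2.1 i :=
        dif_pos h
      rw [e]
      exact (hc _ _ _ _).2.1 i
    · exact Or.inl (dif_neg h)
  refine ⟨c0, hsign, fun S h1 h2 h3 => ⟨h3, hsign, fun v hv hS => ?_⟩⟩
  rw [(hc S h1 h2 h3).2.2 v hv hS]
  have e : (S.erase v₁).filter (fun i => v i ≠ c0 i) =
      (S.erase v₁).filter (fun i => v i ≠ c S h1 h2 h3 i) := by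
    refine filter_congr fun i hi => ?_
    rw [mem_erase] at hi
    rw [hc0 S h1 h2 h3 i hi.2 hi.1]
  rw [e]

end Pool.Agent.Helper58.SGC
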