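import Pool.Agent.Helper86.SG.Defs

/-! SG, package LOW. -/

open Finset

namespace Pool.Agent.Helper58.SGL

open SJ (supp IsV dot fib)
open SG

theorem low (hSRC : SRCStm) (hCLS : CLSStm) : LOWStm := by
  intro n k d F hk hF A hA v hv hcl
  classical
  have hdisj : Disjoint (DD F A) A := by
    rw [disjoint_left]
    intro u hu
    rw [DD, mem_filter] at hu
    exact hu.2.1
  -- the remaining points
  let R : Finset (Fin n) := univ \ (DD F A ∪ A)
  have hR : #(DD F A) + (2 * d + 2) + #R = n := by
    have e1 := card_sdiff_add_card_inter (univ : Finset (Fin n)) (DD F A ∪ A)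
    rw [univ_inter, card_union_of_disjoint hdisj, hA, card_univ, Fintype.card_fin] at e1
    change #(univ \ (DD F A ∪ A)) + _ = n at e1
    change _ + _ + #(univ \ (DD F A ∪ A)) = n
    omega
  refine ⟨#R, hR, ?_⟩
  rw [← card_powersetCard]
  refine card_le_card_of_injOn (fun B => B ∪ A) ?_ ?_
  · intro B hB
    rw [mem_coe, mem_powersetCard] at hB
    have hBA : Disjoint B A := by
      rw [disjoint_left]
      intro x hx hx'
      have := hB.1 hx
      simp only [R, mem_sdiff, mem_union, not_or] at this
      exact this.2.2 hx'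
    have hS : #(B ∪ A) = k := by
      rw [card_union_of_disjoint hBA, hB.2, hA]
      omega
    rw [mem_coe, exP, mem_filter]
    refine ⟨?_, subset_union_right⟩
    by_contra hex
    obtain ⟨f, c, hfc⟩ := (hSRC n k d F hk hF (B ∪ A) hS).2 hex
    have hHH : B ∪ A ∉ HH k d F := fun h => hex (mem_union_left _ h)
    have h1 := hCLS n k d F hk hF A hA v hv hcl (B ∪ A) hS hHH subset_union_right f c hfc
    have h2 : f ∈ B ∪ A := hfc.1
    rcases mem_union.1 h2 with h3 | h3
    · have := hB.1 h3
      simp only [R, mem_sdiff, mem_union, not_or] at this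
      exact this.2.1 h1
    · exact disjoint_left.1 hdisj h1 h3
  · intro B hB B' hB' h
    rw [mem_coe, mem_powersetCard] at hB hB'
    have e : ∀ B : Finset (Fin n), B ⊆ R → (B ∪ A) \ A = B := by
      intro B hB
      rw [union_sdiff_right, Finset.sdiff_eq_self_iff_disjoint, disjoint_left]
      intro x hx hx'
      have := hB (by first | exact hx | exact hx')
      simp only [R, mem_sdiff, mem_union, not_or] at this
      exact this.2.2 hx'
    have h' : B ∪ A = B' ∪ A := h
    rw [← e B hB.1, ← e B' hB'.1, h']

end Pool.Agent.Helper58.SGL
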